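import Pool.Agent.Q35.TT.Stm
import Pool.Agent.Y720.MZ.Sep

/-!
# Project TT, job SNG (helper151)
-/

set_option autoImplicit false

open Polynomial

namespace Pool.Agent.Q151.TT

open Pool.Agent.Q35.TT Pool.Agent.Y720.MZ

lemma pq_eq_qpol {K : Type} [Field K] (a : Fin 5 → K) :
    pq a = qpol (a 0) (a 1) (a 2) (a 3) (a 4) := by
  simp [pq, qpol, Fin.sum_univ_succ]
  ring_nf

lemma pq_eval {K L : Type} [Field K] [Field L] (φ : K →+* L) (a : Fin 5 → K) (r : L) :
    ((pq a).map φ).eval r = bq (fun i => φ (a i)) ![1, r] := by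
  rw [pq_eq_qpol]
  simp [qpol, bq]

lemma pq_derivative {K L : Type} [Field K] [Field L] (φ : K →+* L) (a : Fin 5 → K) (r : L) :
    (((pq a).map φ).derivative).eval r = bd (fun i => φ (a i)) ![1, r] 1 := by
  rw [pq_eq_qpol]
  simp [qpol, bd]
  ring

lemma euler_bq {R : Type} [CommRing R] (a : Fin 5 → R) (x : Fin 2 → R) :
    x 0 * bd a x 0 + x 1 * bd a x 1 = 4 * bq a x := by
  simp [bd, bq]
  ring

lemma cx_cy {R : Type} [CommRing R] (c : Fin 5 → Fin 5 → R) (x y : Fin 2 → R) :
    bq (cx c y) x = bq (cy c x) y := by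
  simp only [bq, cx, cy]
  ring

lemma bd_cx {R : Type} [CommRing R] (c : Fin 5 → Fin 5 → R) (x y : Fin 2 → R) (k : Fin 2) :
    bd (cx c y) x k = bq (fun j => bd (fun i => c i j) x k) y := by
  fin_cases k
  · simp only [bq, cx, bd, Fin.zero_eta, Matrix.cons_val_zero]
    ring
  · simp only [bq, cx, bd, Fin.mk_one, Matrix.cons_val_one, Matrix.cons_val_zero]
    ring

lemma map_bq {R S : Type} [CommRing R] [CommRing S] (φ : R →+* S) (a : Fin 5 → R)
    (x : Fin 2 → R) : φ (bq a x) = bq (fun i => φ (a i)) (fun i => φ (x i)) := by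
  simp [bq]

lemma map_bd {R S : Type} [CommRing R] [CommRing S] (φ : R →+* S) (a : Fin 5 → R)
    (x : Fin 2 → R) (k : Fin 2) :
    φ (bd a x k) = bd (fun i => φ (a i)) (fun i => φ (x i)) k := by
  have e2 : φ 2 = 2 := map_ofNat φ 2
  have e3 : φ 3 = 3 := map_ofNat φ 3
  have e4 : φ 4 = 4 := map_ofNat φ 4
  fin_cases k <;> simp [bd, e2, e3, e4]

/-- at a multiple zero of the form on the line the derivative across the line does not vanish -/
lemma key {K : Type} [Field K] [CharZero K] (c : Fin 5 → Fin 5 → K) (hc : Smooth c) (s : K)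
    (y : Fin 2 → AlgebraicClosure K) (hy : y ≠ 0)
    (h0 : ∀ k, bd (fun j => algebraMap K (AlgebraicClosure K) (cy c ![1, s] j)) y k = 0) :
    bq (fun j => algebraMap K (AlgebraicClosure K) (gd c s j)) y ≠ 0 := by
  obtain ⟨φ, hφ⟩ : ∃ φ : K →+* AlgebraicClosure K, φ = algebraMap K (AlgebraicClosure K) :=
    ⟨_, rfl⟩
  unfold Smooth at hc
  simp only [← hφ] at hc h0 ⊢
  have hv : (fun i => φ ((![1, s] : Fin 2 → K) i)) = ![1, φ s] := by
    funext i
    fin_cases i <;> simp
  have e1 : (fun j => φ (cy c ![1, s] j)) = cy (fun i j => φ (c i j)) ![1, φ s] := by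
    funext j
    rw [cy, cy, map_bq, hv]
  have e2 : (fun j => φ (gd c s j)) = fun j => bd (fun i => φ (c i j)) ![1, φ s] 1 := by
    funext j
    rw [gd, map_bd, hv]
  rw [e1] at h0
  rw [e2, ← bd_cx]
  intro h1
  refine hc ![1, φ s] y ?_ hy ?_ h0
  · intro h
    have := congrFun h 0
    simp at this
  · have eu1 := euler_bq (cx (fun i j => φ (c i j)) y) ![1, φ s]
    have eu2 := euler_bq (cy (fun i j => φ (c i j)) ![1, φ s]) y
    rw [cx_cy, ← eu2, h0 0, h0 1, h1] at eu1
    simp only [Matrix.cons_val_zero, Matrix.cons_val_one, mul_zero, add_zero, one_mul] at eu1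
    intro k
    fin_cases k
    · exact eu1
    · exact h1

theorem sng : S_SNG := by
  intro K _ _ c hc s hg hd
  obtain ⟨g, hgg⟩ : ∃ g, g = cy c ![1, s] := ⟨_, rfl⟩
  obtain ⟨h, hh⟩ : ∃ h, h = gd c s := ⟨_, rfl⟩
  have hk := key c hc s
  rw [← hgg] at hg hd hk ⊢
  rw [← hh] at hk ⊢
  by_cases h34 : g 3 = 0 ∧ g 4 = 0
  · -- the multiple zero at infinity
    right
    have h4 : h 4 ≠ 0 := by
      intro h40
      have hy : (![0, 1] : Fin 2 → AlgebraicClosure K) ≠ 0 := by
        intro h
        have := congrFun h 1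
        simp at this
      refine hk ![0, 1] hy ?_ ?_
      · intro k
        fin_cases k <;> simp [bd, h34.1, h34.2]
      · simp [bq, h40]
    have d1 : (pq g).natDegree ≤ 2 := by
      rw [pq_eq_qpol, h34.1, h34.2]
      simp only [qpol, C_0, zero_mul, add_zero]
      compute_degree
    have d2 : (pq h).natDegree = 4 := by
      rw [pq_eq_qpol]
      unfold qpol
      compute_degree!
    omega
  · left
    have hdeg : 3 ≤ (qpol (g 0) (g 1) (g 2) (g 3) (g 4)).natDegree := by
      obtain ⟨-, -, -, c3, c4⟩ := qpol_coeff (g 0) (g 1) (g 2) (g 3) (g 4)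
      by_contra hlt
      push Not at hlt
      apply h34
      constructor
      · rw [← c3]
        exact coeff_eq_zero_of_natDegree_lt (by omega)
      · rw [← c4]
        exact coeff_eq_zero_of_natDegree_lt (by omega)
    have hns : ¬ (pq g).Separable := by
      intro hs
      rw [pq_eq_qpol] at hs
      exact dc_ne_zero hs hdeg hd
    have hpg : pq g ≠ 0 := by
      intro h0
      rw [← pq_eq_qpol, h0, natDegree_zero] at hdeg
      omega
    -- a common root of the polynomial and of its derivative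
    obtain ⟨φ, hφ⟩ : ∃ φ : K →+* AlgebraicClosure K, φ = algebraMap K (AlgebraicClosure K) :=
      ⟨_, rfl⟩
    obtain ⟨r, hr1, hr2⟩ : ∃ r : AlgebraicClosure K, ((pq g).map φ).eval r = 0 ∧
        (((pq g).map φ).derivative).eval r = 0 := by
      by_contra hno
      push Not at hno
      apply hns
      rw [Polynomial.separable_def]
      refine (Polynomial.isCoprime_iff_aeval_ne_zero_of_isAlgClosed (k := K)
        (AlgebraicClosure K) (pq g) (derivative (pq g))).2 ?_
      intro r
      rw [← Polynomial.eval_map_algebraMap, ← Polynomial.eval_map_algebraMap, ← hφ,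
        ← Polynomial.derivative_map]
      by_cases h1 : ((pq g).map φ).eval r = 0
      · exact Or.inr (hno r h1)
      · exact Or.inl h1
    rw [pq_derivative] at hr2
    have hr1' := hr1
    rw [pq_eval] at hr1'
    have hy : (![1, r] : Fin 2 → AlgebraicClosure K) ≠ 0 := by
      intro h
      have := congrFun h 0
      simp at this
    have hk' := hk ![1, r] hy (by
      rw [← hφ]
      have eu := euler_bq (fun i => φ (g i)) ![1, r]
      rw [hr1', hr2] at eu
      simp only [Matrix.cons_val_zero, Matrix.cons_val_one, mul_zero, add_zero, one_mul] at eu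
      intro k
      fin_cases k
      · exact eu
      · exact hr2)
    rw [← hφ, ← pq_eval] at hk'
    rintro ⟨q, hq⟩
    have e := congrArg (fun f => (f.map φ).eval r) hq
    simp only [Polynomial.map_pow, Polynomial.map_mul, Polynomial.eval_pow, Polynomial.eval_mul,
      hr1, zero_mul] at e
    exact hk' (pow_eq_zero_iff (two_ne_zero) |>.1 e)

end Pool.Agent.Q151.TT
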