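import Pool.Agent.Q35.TT.Stm

/-!
# Project TT, job THB (helper151)
-/

set_option autoImplicit false

open Polynomial Height AdmissibleAbsValues

namespace Pool.Agent.Q151.TT.B

open Pool.Agent.Q35.TT Pool.Agent.Y720.MZ

lemma cx_cy {R : Type} [CommRing R] (c : Fin 5 → Fin 5 → R) (x y : Fin 2 → R) :
    bq (cx c y) x = bq (cy c x) y := by
  simp only [bq, cx, cy]
  ring

lemma bd_cx {R : Type} [CommRing R] (c : Fin 5 → Fin 5 → R) (s : R) (y : Fin 2 → R) :
    bd (cx c y) ![1, s] 1 = bq (fun j => bd (fun i => c i j) ![1, s] 1) y := by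
  simp only [bq, cx, bd, Matrix.cons_val_one, Matrix.cons_val_zero]
  ring

lemma bound1 {C N F S T x : ℝ} (hC : 1 ≤ C) (hN : 1 ≤ N) (hF : 0 ≤ F) (hS : 1 ≤ S) (hT : 0 ≤ T)
    (hx : x ≤ T) : F * x ≤ C * N * F * S * T := by
  have h1 : F * x ≤ F * T := mul_le_mul_of_nonneg_left hx hF
  have h2 : 0 ≤ F * T := mul_nonneg hF hT
  have h3 : 1 ≤ C * N := one_le_mul_of_one_le_of_one_le hC hN
  have h4 : 1 ≤ C * N * S := one_le_mul_of_one_le_of_one_le h3 hS
  have h5 : F * T ≤ (C * N * S) * (F * T) := le_mul_of_one_le_left h2 h4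
  calc F * x ≤ F * T := h1
    _ ≤ (C * N * S) * (F * T) := h5
    _ = C * N * F * S * T := by ring

lemma one_le_maxpow (x : ℝ) (k : ℕ) : 1 ≤ max 1 x ^ k := one_le_pow₀ (le_max_left _ _)

theorem thb (h1 : S_GLO) (h2 : S_ORD) (h3 : S_PRO) (h4 : S_BHT) : S_THB := by
  intro K _ _ c s hnd
  obtain ⟨C, hC1, hCf, hglo⟩ := h1 K c
  obtain ⟨C1, hC1pos, hord⟩ := h2 K c (8 * totalWeight K)
  obtain ⟨D, hD, hpro⟩ := h3 K C hC1 hCf
  obtain ⟨D', hD', hbht⟩ := h4 K (cy c ![1, s]) (gd c s) hnd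
  refine (NumberField.finite_setOfPred_mulHeight₁_le K
    (D ^ 2 * C1 * mulHeight₁ s ^ 4 / D' ^ 2)).subset ?_
  rintro t ⟨w, n0, hn0, htor0⟩
  obtain ⟨n, hn, htor, hnM⟩ := hord s t w n0 hn0 htor0
  have hF : bq (cy c ![1, s]) ![1, t] = w ^ 2 := by
    rw [← cx_cy]
    exact htor.2.1.symm
  have hF0 : bq (cy c ![1, s]) ![1, t] ≠ 0 := by
    rw [hF]
    exact pow_ne_zero 2 htor.1
  have hF4 : F4 c ![1, s] ![1, t] = bq (cy c ![1, s]) ![1, t] := cx_cy c _ _
  have hH : bd (cx c ![1, t]) ![1, s] 1 = bq (gd c s) ![1, t] := bd_cx c s _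
  obtain ⟨harch, hnon⟩ := hglo s t w n hn htor 1
  rw [hF4, hH] at harch hnon
  have hn1 : (1 : ℝ) ≤ (n : ℝ) ^ 4 := one_le_pow₀ (by exact_mod_cast Nat.one_le_iff_ne_zero.2 hn)
  have hz : (![bq (gd c s) ![1, t] ^ 2, bq (cy c ![1, s]) ![1, t],
      bq (cy c ![1, s]) ![1, t] * t ^ 4] : Fin 3 → K) ≠ 0 := by
    intro h
    exact hF0 (by simpa using congrFun h 1)
  have hup := hpro (Fin 3) ![bq (gd c s) ![1, t] ^ 2, bq (cy c ![1, s]) ![1, t],
    bq (cy c ![1, s]) ![1, t] * t ^ 4] (bq (cy c ![1, s]) ![1, t]) s t 2 4 ((n : ℝ) ^ 4)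
    hz hF0 hn1 (by
      intro v hv i
      fin_cases i
      · simpa using harch v hv
      · have := bound1 (hC1 v) hn1 (v.nonneg (bq (cy c ![1, s]) ![1, t]))
          (one_le_maxpow (v s) 2) (zero_le_one.trans (one_le_maxpow (v t) 4))
          (one_le_maxpow (v t) 4)
        simpa using this
      · have := bound1 (x := v t ^ 4) (hC1 v) hn1 (v.nonneg (bq (cy c ![1, s]) ![1, t]))
          (one_le_maxpow (v s) 2) (zero_le_one.trans (one_le_maxpow (v t) 4))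
          (pow_le_pow_left₀ (v.nonneg t) (le_max_right _ _) 4)
        simpa using this) (by
      intro v hv i
      fin_cases i
      · simpa using hnon v hv
      · have := bound1 (N := 1) (hC1 v) le_rfl (v.nonneg (bq (cy c ![1, s]) ![1, t]))
          (one_le_maxpow (v s) 2) (zero_le_one.trans (one_le_maxpow (v t) 4))
          (one_le_maxpow (v t) 4)
        simpa using this
      · have := bound1 (N := 1) (x := v t ^ 4) (hC1 v) le_rfl
          (v.nonneg (bq (cy c ![1, s]) ![1, t]))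
          (one_le_maxpow (v s) 2) (zero_le_one.trans (one_le_maxpow (v t) 4))
          (pow_le_pow_left₀ (v.nonneg t) (le_max_right _ _) 4)
        simpa using this)
  have hlow := hbht t hF0
  have hcomb := hlow.trans hup
  have hT : 0 < mulHeight₁ t := mulHeight₁_pos t
  have hS : 0 < mulHeight₁ s := mulHeight₁_pos s
  rw [← pow_mul] at hcomb
  -- cancel the fourth power of the height
  have e1 : D' * mulHeight₁ t ≤ D * (n : ℝ) ^ (4 * totalWeight K) * mulHeight₁ s ^ 2 := by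
    have h : (D' * mulHeight₁ t) * mulHeight₁ t ^ 4 ≤
        (D * (n : ℝ) ^ (4 * totalWeight K) * mulHeight₁ s ^ 2) * mulHeight₁ t ^ 4 := by
      calc (D' * mulHeight₁ t) * mulHeight₁ t ^ 4 = D' * mulHeight₁ t ^ 5 := by ring
        _ ≤ _ := hcomb
    exact le_of_mul_le_mul_right h (pow_pos hT 4)
  have e2 : (D' * mulHeight₁ t) ^ 2 ≤
      (D * (n : ℝ) ^ (4 * totalWeight K) * mulHeight₁ s ^ 2) ^ 2 :=
    pow_le_pow_left₀ (by positivity) e1 2
  have e3 : (D * (n : ℝ) ^ (4 * totalWeight K) * mulHeight₁ s ^ 2) ^ 2 =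
      D ^ 2 * mulHeight₁ s ^ 4 * (n : ℝ) ^ (8 * totalWeight K) := by
    rw [mul_pow, mul_pow, ← pow_mul, ← pow_mul]
    ring
  have e4 : D ^ 2 * mulHeight₁ s ^ 4 * (n : ℝ) ^ (8 * totalWeight K) ≤
      D ^ 2 * mulHeight₁ s ^ 4 * (C1 * mulHeight₁ t) :=
    mul_le_mul_of_nonneg_left hnM (by positivity)
  have e5 : (D' ^ 2 * mulHeight₁ t) * mulHeight₁ t ≤
      (D ^ 2 * C1 * mulHeight₁ s ^ 4) * mulHeight₁ t := by
    calc (D' ^ 2 * mulHeight₁ t) * mulHeight₁ t = (D' * mulHeight₁ t) ^ 2 := by ring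
      _ ≤ _ := e2
      _ = _ := e3
      _ ≤ _ := e4
      _ = _ := by ring
  have e6 := le_of_mul_le_mul_right e5 hT
  change mulHeight₁ t ≤ _
  rw [le_div_iff₀ (by positivity)]
  linarith

end Pool.Agent.Q151.TT.B
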